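import Mathlib
import Pool.Graph.R_pool_sql_team_39128cda.H.MP_0d317a_lc.C
import Pool.Graph.R_seed8.Helper220.ForceCH

/-!
# MP_8fdcc7_lc, Q2: Tukey-top under inclusion but not under almost inclusion, consistently

No hypothesis is assumed. Some notion of forcing forces Jensen's diamond and preserves `ω₁`
(first part, in the forcing language of `Pool.Agent.Helper220.ForceCH`), and diamond gives an
ultrafilter `U` such that `(U, ⊇)` is Tukey-top while `(U, ⊇*)` is not (second part).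
-/

set_option autoImplicit false

namespace Pool.Agent.Results.MP_8fdcc7_lc.ForcedTopUnderInclusionOnly

open Set Cardinal Ordinal
open Pool.Agent.Helper220.ForceCH (Om OmegaOnePreserved DiamondHolds)

/-- `C` is a closed unbounded subset of `ω₁` (the sentence named by `IsClubName`) -/
def Club (C : Om → Prop) : Prop :=
  (∀ a : Om, ∃ b : Om, a < b ∧ C b) ∧
    ∀ a : Om, (∃ b, b < a) → (∀ b : Om, b < a → ∃ c : Om, (b < c ∧ c < a) ∧ C c) → C a

/-- diamond: the sentence which `DiamondHolds P` says is forced, evaluated in the universe -/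
def Diamond : Prop :=
  ∃ A : Om → Om → Prop, ∀ S : Om → Prop, ∀ C : Om → Prop,
    Club C → ∃ a : Om, C a ∧ ∀ b : Om, b < a → (S b ↔ A a b)

/-- Tukey reducibility of directed preorders: a map sending every unbounded subset to an
unbounded subset -/
def TukeyLE {α β : Type} (r : α → α → Prop) (s : β → β → Prop) : Prop :=
  ∃ f : α → β, ∀ S : Set α, (¬ ∃ a, ∀ x ∈ S, r x a) → ¬ ∃ b, ∀ y ∈ f '' S, s y b

/-- `(U, ⊇)`: `B` is above `A` when `A ⊇ B` -/
def Incl (U : Ultrafilter ℕ) (A B : {A : Set ℕ // A ∈ U}) : Prop := B.1 ⊆ A.1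

/-- `(U, ⊇*)`: `B` is above `A` when `B \ A` is finite -/
def AlmostIncl (U : Ultrafilter ℕ) (A B : {A : Set ℕ // A ∈ U}) : Prop := (B.1 \ A.1).Finite

/-- `([𝔠]^{<ω}, ⊆)` -/
def FinSub (A B : Finset ℝ) : Prop := A ⊆ B

/-- the directed preorder `r` is Tukey-top: `([𝔠]^{<ω}, ⊆) ≤_T r` -/
def TukeyTop {α : Type} (r : α → α → Prop) : Prop := TukeyLE FinSub r

theorem dia_of_diamond (h : Diamond) : Pool.Agent.H.MP_2e4b78_lc.Dia := by
  obtain ⟨A, hA⟩ := h
  let e : Om ≃o Pool.Agent.H.MP_77d395_lc.I :=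
    OrderIso.ofRelIsoLT (Classical.choice (Ordinal.type_eq.1 (by simp)))
  refine ⟨fun i => {x | x < i ∧ A (e.symm i) (e.symm x)}, fun Y E hE => ?_⟩
  have hclub : Club fun b => e b ∈ E := by
    refine ⟨fun a => ?_, fun a hn hc => ?_⟩
    · obtain ⟨b, hb⟩ := Pool.Agent.H.MP_6e75db_lc.bd (countable_singleton (e a))
      obtain ⟨c, hc, hbc⟩ := hE.isCofinal b
      refine ⟨e.symm c, ?_, by simpa using hc⟩
      rw [← e.lt_iff_lt]
      simpa using (hb _ rfl).trans_le hbc
    · refine hE.isLUB_mem (t := {x | x ∈ E ∧ x < e a}) (fun x hx => hx.1) ?_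
        ⟨fun x hx => hx.2.le, ?_⟩
      · obtain ⟨b, hb⟩ := hn
        obtain ⟨c, ⟨-, h2⟩, h3⟩ := hc b hb
        exact ⟨e c, h3, e.lt_iff_lt.2 h2⟩
      · intro y hy
        by_contra hlt
        have hlt := not_le.1 hlt
        obtain ⟨c, ⟨h1, h2⟩, h3⟩ := hc (e.symm y) (by rw [← e.lt_iff_lt]; simpa using hlt)
        have h4 : e c ≤ y := hy ⟨h3, e.lt_iff_lt.2 h2⟩
        have h5 : y < e c := by
          have := e.lt_iff_lt.2 h1
          simpa using this
        exact absurd h4 (not_le.2 h5)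
  obtain ⟨a, ha, hb⟩ := hA (fun b => e b ∈ Y) _ hclub
  refine ⟨e a, ?_, ha⟩
  ext x
  constructor
  · rintro ⟨hx, hx'⟩
    have hx' : x < e a := hx'
    refine ⟨hx', ?_⟩
    have := (hb (e.symm x) (by rw [← e.lt_iff_lt]; simpa using hx')).1 (by simpa using hx)
    simpa using this
  · rintro ⟨hx, hx'⟩
    refine ⟨?_, hx⟩
    have := (hb (e.symm x) (by rw [← e.lt_iff_lt]; simpa using hx)).2 (by simpa using hx')
    simpa using this

/-- No hypothesis is assumed. (1) Some notion of forcing `P` forces Jensen's diamond principle and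
preserves `ω₁`. (2) Diamond implies that there is a nonprincipal ultrafilter `U` on `ℕ` for which
`(U, ⊇)` is Tukey-top and `(U, ⊇*)` is not Tukey-top. -/
theorem result :
    (∃ (P : Type) (_ : Preorder P), Nonempty P ∧ ∀ p : P,
      p ∈ OmegaOnePreserved P ∧ p ∈ DiamondHolds P) ∧
    (Diamond → ∃ U : Ultrafilter ℕ, (∀ n, {n} ∉ U) ∧ TukeyTop (Incl U) ∧
      ¬ TukeyTop (AlmostIncl U)) := by
  constructor
  · obtain ⟨P, hP, hne, h⟩ := Pool.Agent.Helper220.ForceCH.exists_forcing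
    exact ⟨P, hP, hne, fun p => ⟨(h p).1, (h p).2.1⟩⟩
  · intro h
    obtain ⟨U, V, -, -, -, -, h1, h2, h3, -⟩ :=
      Pool.Agent.H.MP_0d317a_lc.main (dia_of_diamond h)
    exact ⟨_, h3, h1, h2⟩

end Pool.Agent.Results.MP_8fdcc7_lc.ForcedTopUnderInclusionOnly
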